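import Pool.Agent.TH689.QXTri

/-!
# Randomized convex programs need `N ^ 3` constraints for Exact Triangle with random weights

The definitions used in the statement (in `Pool/Agent/TH689/QXTri.lean`,
`Pool/Agent/TH689/QXDefs.lean` and `Pool/Agent/TH689/GXDefs.lean`):

* The graph is the complete graph with three parts with `N` vertices each. The weights are integers
  with `T` digits in base `3`. An instance `y` gives the digits: the `t`-th digit of the weight
  `w12 y i j` of the edge between the vertex `i` of the first part and the vertex `j` of the second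
  part is `y t (0, (i, j))`, the `t`-th digit of the weight `w23 y j k` is `y t (1, (j, k))`, and
  `w13 y i k` is minus the number whose `t`-th digit is `y t (2, (i, k)) + y t (3, (i, k))`, which
  is `0`, `1` or `2`.
* `Unbal triLoc (y t) (i, j, k)`: the `t`-th digits of the three weights of the triangle do not
  balance. The weight of the triangle is zero if and only if this holds for no `t` (third part of the
  theorem).
* `Scheme X 𝒞 a s r D`: the schemes of mixed-integer convex programming relaxations of the problem
  to find a triangle of weight zero, with `a` binary variables, `s` convex constraints of dimension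
  `D` which are common to all instances and `r` such constraints for every position of the digits,
  which may depend in any way on the digits of all weights at this position. A constraint says that
  the value of an affine map to `ℝ ^ D` lies in an arbitrary convex set. There are any number of real
  variables and linear equations. Every triangle has a vector, about which nothing is assumed.
* `P.CorrectAt (Unbal triLoc) x`: the vector of the triangle `x` satisfies the common constraints,
  the constraints of all positions of digits which balance for `x`, and its binary variables are `0`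
  or `1`; so it is a solution of the relaxation of every instance in which `x` has weight zero.
* `Rejects P (Unbal triLoc) y δ`: the relaxation claims, with an error `δ`, that there is no triangle
  of weight zero in the instance `y`.
* `P.correctRate (Unbal triLoc)`: the fraction of the triangles at which `P` is correct.
* `rejectRate P (Unbal triLoc) T δ`: the fraction of the instances with `T` digits which are
  rejected.
-/

set_option autoImplicit false

namespace Pool.Agent.Results.MP_62fbe0_lc.ConvexProgramsRandomWeights

open Pool.Agent.TH689.GX Pool.Agent.TH689.QX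

/-- Let `N, T ≥ 1` and `0 < δ < 1`. Let `P ω` be a randomized scheme of mixed-integer convex
programming relaxations of the Exact Triangle problem for weights with `T` digits, where `ω` has the
probability `p ω`, and with `2 ^ a * (s + (r + 1) * T + 1) * (D + 2) ≤ M`. Then the probability that
it is correct at a random triangle and that, independently, it rejects random weights with the error
`δ` is at most `4 * T ^ 3 * M / (N ^ 3 * δ ^ 2)`.

Conversely, for `N ≥ 1` and every `S ≤ N ^ 3` there is a scheme with `S` linear inequalities and
one more for every position of the digits, which is correct at a fraction `S / N ^ 3` of the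
triangles, rejects every instance without triangles of weight zero with every error `δ < 1 / T`, and
so rejects all but a fraction `N ^ 3 * (3 / 8) ^ T` of the instances. -/
theorem result :
    (∀ N T : ℕ, 0 < N → 1 ≤ T → ∀ δ : ℝ, 0 < δ → δ < 1 →
      ∀ (Ω : Type) [Fintype Ω] (p : Ω → ℝ), (∀ ω, 0 ≤ p ω) → ∑ ω, p ω = 1 →
      ∀ (a s r D : Ω → ℕ) (M : ℝ),
        (∀ ω, (2 : ℝ) ^ a ω * (s ω + (r ω + 1) * T + 1) * (D ω + 2) ≤ M) →
      ∀ P : ∀ ω, Scheme (Fin N × Fin N × Fin N) (Fin 4 × (Fin N × Fin N) → Bool)
          (a ω) (s ω) (r ω) (D ω),
        ∑ ω, p ω * ((P ω).correctRate (Unbal triLoc) * rejectRate (P ω) (Unbal triLoc) T δ)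
          ≤ 4 * T ^ 3 * M / (N ^ 3 * δ ^ 2)) ∧
    (∀ N : ℕ, 0 < N → ∀ S ≤ N ^ 3,
      ∃ P : Scheme (Fin N × Fin N × Fin N) (Fin 4 × (Fin N × Fin N) → Bool) 0 S 1 1,
        P.correctRate (Unbal triLoc) = (S : ℝ) / N ^ 3 ∧
        ∀ (T : ℕ) (δ : ℝ), 0 ≤ δ → T * δ < 1 →
          (∀ y : Fin T → (Fin 4 × (Fin N × Fin N) → Bool),
            (∀ i j k, w12 y i j + w23 y j k + w13 y i k ≠ 0) → Rejects P (Unbal triLoc) y δ) ∧
          1 - (N : ℝ) ^ 3 * (3 / 8) ^ T ≤ rejectRate P (Unbal triLoc) T δ) ∧
    ∀ (N T : ℕ) (y : Fin T → (Fin 4 × (Fin N × Fin N) → Bool)) (i j k : Fin N),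
      w12 y i j + w23 y j k + w13 y i k = 0 ↔ ∀ t, ¬ Unbal triLoc (y t) (i, j, k) := by
  refine ⟨?_, ?_, fun N T y i j k => zero_iff y i j k⟩
  · intro N T hN hT δ hδ0 hδ1 Ω _ p hp hp1 a s r D M hM P
    have : Nonempty (Fin N × Fin N × Fin N) := ⟨(⟨0, hN⟩, ⟨0, hN⟩, ⟨0, hN⟩)⟩
    have h1 := learn_random (Unbal (triLoc (N := N))) (twist_tri hN) hT hδ0 hδ1 Ω p hp
      hp1 a s r D M hM P
    refine h1.trans (le_of_eq ?_)
    have hN' : (N : ℝ) ≠ 0 := by exact_mod_cast hN.ne'
    field_simp
    ring
  · intro N hN S hS
    have : Nonempty (Fin N × Fin N × Fin N) := ⟨(⟨0, hN⟩, ⟨0, hN⟩, ⟨0, hN⟩)⟩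
    have hcard : Fintype.card (Fin N × Fin N × Fin N) = N ^ 3 := by
      rw [Fintype.card_prod, Fintype.card_prod, Fintype.card_fin]
      ring
    obtain ⟨P, h1, h2⟩ := learn_upper (Unbal (triLoc (N := N))) (3 / 8)
      (unbal_count triLoc) S (by rw [hcard]; exact hS)
    refine ⟨P, ?_, ?_⟩
    · rw [h1, hcard]
      push_cast
      rfl
    · intro T δ hδ0 hδ
      obtain ⟨h3, h4⟩ := h2 T δ hδ0 hδ
      refine ⟨?_, ?_⟩
      · intro y hy
        apply h3 y
        rintro ⟨i, j, k⟩
        by_contra hcon
        push Not at hcon
        exact hy i j k ((zero_iff y i j k).2 hcon)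
      · rw [hcard] at h4
        refine le_trans (le_of_eq ?_) h4
        push_cast
        rfl

end Pool.Agent.Results.MP_62fbe0_lc.ConvexProgramsRandomWeights
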