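import Pool.Agent.TH810.CW.Exact

/-!
# Probabilistic circuits with arbitrary gates for Exact Triangle

The gates of a circuit (`Circuit`) compute arbitrary functions of the multiset of the labels and
values on their wires, with unbounded fan-in and values in an arbitrary set; an input gate reads a
whole entry (edge flag, weight) of the matrix. The wiring of a gate consists of the entry it reads
and of the labels and functions on its wires (as functions of the matrix); `numWirings` is the
number of different transforms of the wirings of all gates under relabelings of the vertices. No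
symmetry of the circuits is assumed.

1. Let the vertex set consist of three families of `r` pairs of vertices, and a rest. There is an
   elementary abelian group `Γ` of at most `2 r` permutations (swaps of the pairs of one family)
   such that every probabilistic circuit that decides Exact Triangle with error probability at most
   `ε` (on the complete graph, with the weights `0` and `1` only) has an expected number of wirings
   up to `Γ × Γ × Γ` of at least `(1 - 2 ε) r ^ 3`.
2. Brute force has at most `n ^ 3 + n ^ 2 + 1` wirings up to all relabelings of the `n` vertices,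
   for arbitrary integral weights.
-/

set_option autoImplicit false

namespace Pool.Agent.Results.MP_62fbe0_lc.CubicWirings

open Finset
open Pool.Agent.H429R4.FW Pool.Agent.H429R4.TR Pool.Agent.TH810.CW

open Classical in
theorem result :
    -- probabilistic circuits
    (∀ r : ℕ, 1 ≤ r → ∃ Γ : AddSubgroup (Fin r → ZMod 2), Nat.card Γ ≤ 2 * r ∧
      ∀ (Z Ω : Type) [Fintype Z] [Fintype Ω] (p : Ω → ℝ),
        (∀ ω, 0 ≤ p ω) → ∑ ω, p ω = 1 →
        ∀ (D L : Type) (dec : D → Prop)
          (C : Ω → Circuit (Bool × ℤ) (Kx r Z × Kx r Z) D L) (ε : ℝ),
          (∀ x : Inst (Kx r Z), Valid x →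
            (∀ u v, u ≠ v → (x u v).1 = true ∧ ((x u v).2 = 0 ∨ (x u v).2 = 1)) →
            ∑ ω with ¬ RightX (C ω) dec x, p ω ≤ ε) →
          ∀ A : Set (Kx r Z → Kx r Z),
            (∀ x : Fin 3 → Fin r → ZMod 2, (∀ i, x i ∈ Γ) → swG x ∈ A) →
            (1 - 2 * ε) * (r : ℝ) ^ 3 ≤
              ∑ ω, p ω * (numWirings encX (C ω) (pullX '' A) : ℝ)) ∧
    -- brute force
    (∀ (V : Type) [Fintype V], ∃ C : Circuit (Bool × ℤ) (V × V) (Bool × ℤ) Unit,
      (∀ x : Inst V, Valid x → RightX C (fun d => d.1 = true) x) ∧
      numWirings encX C (pullX '' {f | ∃ π : Equiv.Perm V, f = π}) ≤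
        Fintype.card V ^ 3 + Fintype.card V ^ 2 + 1) :=
  ⟨exact_bound, fun V _ => ⟨bruteX V, bruteX_right, bruteX_wirings⟩⟩

end Pool.Agent.Results.MP_62fbe0_lc.CubicWirings
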