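import Mathlib
import Pool.Agent.TH272.Shr.ETHeavy

/-!
# Exact triangles: circuits in which shared gates depend on few vertices

The graph is complete tripartite with parts of size `n`, the weights are integers in
`[-n ^ 2, n ^ 2]`; the question is whether there is a triangle of weight zero. The items of the input
are, for each vertex `i` of the first part, all weights at `i`, and all weights between the second
and the third part.

A circuit over the full binary basis is written as a sequence of formulas, one for each gate whose
value is used more than once (a shared gate) and one for the output. The leaves are tests of the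
input, that is, arbitrary Boolean functions of one item (part 1), or of `w` words of length
`c log₂ n`, where each word is an arbitrary function of one item (part 2). There may be any number of
shared gates and references to them. A shared gate is heavy (for `d`) if it depends, directly or by
other shared gates, on the weights at more than `d` vertices of the first part; its dependence on the
weights between the second and the third part does not matter.

* For random circuits with error probability at most `1 / 3` and one item in each test, and for all
  `d`: `n ^ 3 log₂ n ≤ 600 (leaves + d (references + shared gates) + n (references to heavy gates +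
  heavy gates))` (expected numbers). In particular random formulas need `n ^ 3 log₂ n / 600` leaves;
  this is the lower bound of helper697's `RandomizedFormulas`, which was in this folder (with `800`).
* For tests of `w` words,
  `n ^ 3 log₂ n ≤ 200 c w ^ 2 log₂ n leaves + 534 (…)` with the same `…`.
* Conversely, formulas with `n ^ 3 (2 b + 1)` leaves are enough for weights up to `W < 2 ^ b / 4`.

Proof. By the coding of helper697 (`Pool.Agent.TH697.Form.ET`) the weights at a vertex of the first
part can ask for about `n ^ 2 log₂ n / 4` bits of the weights between the other parts. If the other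
weights are fixed, the circuit has at most `2 ^ (1 + s) 16 ^ r (16 q ^ (w - 1)) ^ l` subfunctions,
where `s` is the number of shared gates that depend on the vertex, `r` is the number of references to
them, and `l` is the number of leaves that see the vertex; the references to the other shared gates
are constants. A shared gate that is not heavy is counted for at most `d` vertices, a heavy one for
at most `n`.
-/

set_option autoImplicit false

namespace Pool.Agent.Results.MP_62fbe0_lc.LocalSharing

open Pool.Agent.TH697.Form (IsProb)
open Pool.Agent.TH697.Row (ApproximatesOn)
open Pool.Agent.TH697.Form.ET (Item InRange zeroTri)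
open Pool.Agent.TH272.Shr (Circuit mean)
open Pool.Agent.TH272.Shr.ZeroSum (numbers)

theorem result :
    (∀ n d : ℕ, 8 ≤ n → ∀ (Ω : Type) [Fintype Ω] (μ : Ω → ℝ), IsProb μ →
      ∀ C : Ω → Circuit (Option (Fin n)) (Item n) 1 2,
        ApproximatesOn μ (fun ω => (C ω).eval) (InRange n (n ^ 2)) (zeroTri n) →
          (n : ℝ) ^ 3 * Nat.log 2 n ≤ 600 * (mean μ (fun ω => (C ω).leaves) +
            d * (mean μ (fun ω => (C ω).refs) + mean μ (fun ω => (C ω).shared)) +
            n * (mean μ (fun ω => (C ω).heavyRefs (numbers n) d) +
              mean μ (fun ω => (C ω).heavyGates (numbers n) d)))) ∧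
    (∀ n c w d : ℕ, 24 ≤ n → 1 ≤ c → 1 ≤ w →
      ∀ (Ω : Type) [Fintype Ω] (μ : Ω → ℝ), IsProb μ →
      ∀ C : Ω → Circuit (Option (Fin n)) (Item n) w (n ^ c),
        ApproximatesOn μ (fun ω => (C ω).eval) (InRange n (n ^ 2)) (zeroTri n) →
          (n : ℝ) ^ 3 * Nat.log 2 n ≤
            200 * c * w ^ 2 * Nat.log 2 n * mean μ (fun ω => (C ω).leaves) +
              534 * (d * (mean μ (fun ω => (C ω).refs) + mean μ (fun ω => (C ω).shared)) +
                n * (mean μ (fun ω => (C ω).heavyRefs (numbers n) d) +
                  mean μ (fun ω => (C ω).heavyGates (numbers n) d)))) ∧
    (∀ n W b : ℕ, 1 ≤ n → 4 * W < 2 ^ b →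
      ∃ C : Circuit (Option (Fin n)) (Item n) 1 2,
        (∀ x, InRange n W x → C.eval x = zeroTri n x) ∧ C.shared = 0 ∧ C.refs = 0 ∧
          C.leaves ≤ n ^ 3 * (2 * b + 1)) :=
  ⟨fun _ d hn _ _ μ hμ C hC => Pool.Agent.TH272.Shr.ET.single_heavy hn μ hμ C hC d,
    fun _ _ _ d hn hc hw _ _ μ hμ C hC =>
      Pool.Agent.TH272.Shr.ET.main_heavy hn hc hw μ hμ C hC d,
    fun n W b hn hW => Pool.Agent.TH272.Shr.ET.upper n W b hn hW⟩

end Pool.Agent.Results.MP_62fbe0_lc.LocalSharing
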