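import Mathlib
import Pool.Agent.TH457.Ary.ET

/-!
# Exact triangles: tests which see words

The graph is complete tripartite with parts of size `n`, the weights are integers in
`[-n ^ 2, n ^ 2]`. The items of the input are, for each vertex `i` of the first part, all weights at
`i`, and all weights between the second and the third part. A test is an arbitrary function of `w`
words of length `c log₂ n`, where each word is an arbitrary function of one item. We show that random
formulas over such tests (with arbitrary functions of two bits as gates) and random branching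
programs over such tests need `n ^ 3 / (200 c w ^ 2)` leaves and `n ^ 3 / (1200 c w ^ 2)` nodes, if
the error probability is at most `1 / 3`. For `w = 2` and `c = 3` exhaustive search over the triangles
has `n ^ 3` leaves or nodes, so it is optimal up to a constant factor.

Proof. By the coding of helper697 (`Pool.Agent.TH697.Form.ET`) the weights at a vertex of the first
part can ask for about `n ^ 2 log₂ n / 4` bits of the weights between the other parts. If `r` leaves
see the vertex, then only `2 (16 q ^ (w - 1)) ^ r`, `q = n ^ c`, functions of its weights arise when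
the other weights are fixed.
-/

set_option autoImplicit false

namespace Pool.Agent.Results.MP_62fbe0_lc.WordTests

open Pool.Agent.TH697.Form (IsProb)
open Pool.Agent.TH697.Row (ApproximatesOn)
open Pool.Agent.TH697.Form.ET (Item InRange zeroTri)
open Pool.Agent.TH457.Ary (Fml Program expSize)

theorem result :
    (∀ n c w : ℕ, 24 ≤ n → 1 ≤ c → 1 ≤ w →
      ∀ (Ω : Type) [Fintype Ω] (μ : Ω → ℝ), IsProb μ →
        (∀ F : Ω → Fml (Option (Fin n)) (Item n) w (n ^ c),
          ApproximatesOn μ (fun ω => (F ω).eval) (InRange n (n ^ 2)) (zeroTri n) →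
          (n : ℝ) ^ 3 ≤ 200 * c * w ^ 2 * expSize μ F) ∧
        (∀ (s : ℕ) (B : Ω → Program (Option (Fin n)) (Item n) w (n ^ c) s),
          ApproximatesOn μ (fun ω => (B ω).eval) (InRange n (n ^ 2)) (zeroTri n) →
          (n : ℝ) ^ 3 ≤ 1200 * c * w ^ 2 * s)) ∧
    (∀ n : ℕ, 5 ≤ n →
      (∃ F : Fml (Option (Fin n)) (Item n) 2 (n ^ 3), F.size = n ^ 3 ∧
        ∀ x, InRange n (n ^ 2) x → F.eval x = zeroTri n x) ∧
      ∃ B : Program (Option (Fin n)) (Item n) 2 (n ^ 3) (n ^ 3),
        ∀ x, InRange n (n ^ 2) x → B.eval x = zeroTri n x) :=
  ⟨fun _ _ _ hn hc hw _ _ μ hμ =>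
    ⟨fun F hF => Pool.Agent.TH457.Ary.ET.formula_bound hn hc hw μ hμ F hF,
      fun s B hB => Pool.Agent.TH457.Ary.ET.program_bound hn hc hw μ hμ s B hB⟩,
    fun _ hn => Pool.Agent.TH457.Ary.ET.upper hn⟩

end Pool.Agent.Results.MP_62fbe0_lc.WordTests
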